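import Pool.Agent.Helper15.LR.Defs3
import Pool.Agent.Helper15.LR.H

set_option autoImplicit false

/-! R11: final forms of the gap theorem and of the upper bound. -/

open Finset Filter
open scoped Classical Topology

namespace Pool.Agent.Helper15.LR

theorem R11_dg {V : Type} [Fintype V] (G : SimpleGraph V) [DecidableRel G.Adj] (v : V) :
    dg G.edgeSet v = G.degree v := by
  unfold dg nb
  rw [← SimpleGraph.card_neighborFinset_eq_degree]
  congr 1
  ext u
  simp only [mem_filter, mem_univ, true_and, SimpleGraph.mem_edgeSet, SimpleGraph.mem_neighborFinset]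

theorem R11_main {V : Type} [Fintype V] (G : SimpleGraph V) [DecidableRel G.Adj]
    (hG : ∀ L : Sym2 V → Finset ℕ, (∀ e ∈ G.edgeSet, G.maxDegree ≤ (L e).card) → LC G.edgeSet L)
    (k : ℕ) :
    (G.lineGraph.Colorable k ↔ ∀ L : G.edgeSet → Finset ℕ, (∀ e, k ≤ (L e).card) →
        ∃ f : G.edgeSet → ℕ, (∀ e, f e ∈ L e) ∧
          ∀ e e', G.lineGraph.Adj e e' → f e ≠ f e') ∧
      (G.lineGraph.Colorable k ↔ G.maxDegree ≤ k) := by
  have h1 : G.lineGraph.Colorable k → G.maxDegree ≤ k := by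
    intro h
    refine G.maxDegree_le_of_forall_degree_le k ?_
    intro v
    rw [← R11_dg G v]
    exact dg_le_of_colorable G k h v
  have h2 : G.maxDegree ≤ k → ∀ L : G.edgeSet → Finset ℕ, (∀ e, k ≤ (L e).card) →
        ∃ f : G.edgeSet → ℕ, (∀ e, f e ∈ L e) ∧ ∀ e e', G.lineGraph.Adj e e' → f e ≠ f e' := by
    intro hk L hL
    refine lists_of_LC G L (hG _ ?_)
    intro e he
    rw [dif_pos he]
    exact le_trans hk (hL _)
  exact ⟨⟨fun h => h2 (h1 h), colorable_of_lists G k⟩, ⟨h1, fun h => colorable_of_lists G k (h2 h)⟩⟩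

/-- R11, gap theorem -/
theorem R11a (hGap : Gap_stmt) : GapFinal_stmt := by
  intro ε hε
  obtain ⟨n₀, hn₀⟩ := eventually_atTop.mp (hGap ε hε)
  refine ⟨n₀, ?_⟩
  intro V _ _ G _ h hn hh hcard k
  refine R11_main G ?_ k
  intro L hL
  refine hn₀ (Fintype.card V) hn V G L G.maxDegree h rfl hh ?_ ?_ hL
  · intro v
    rw [R11_dg]
    exact G.degree_le_maxDegree v
  · refine le_trans (le_of_eq ?_) hcard
    congr 1
    ext v
    simp only [mem_filter, mem_univ, true_and]
    rw [R11_dg]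
    exact Iff.rfl

/-- R11, upper bound -/
theorem R11b (hM : Main2_stmt) : BoundFinal_stmt := by
  intro ε hε
  obtain ⟨n₀, hn₀⟩ := eventually_atTop.mp (hM ε hε)
  refine ⟨n₀, ?_⟩
  intro V _ _ G _ hn L hL
  refine lists_of_LC G L (hn₀ (Fintype.card V) hn V G.edgeSet _ (G.maxDegree : ℝ) rfl ?_ ?_ ?_)
  · intro v hv
    exact G.loopless.irrefl v (G.mem_edgeSet.mp hv)
  · intro v
    rw [R11_dg]
    exact_mod_cast G.degree_le_maxDegree v
  · intro e he
    rw [dif_pos he]
    exact hL ⟨e, he⟩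

theorem R11 (hGap : Gap_stmt) (hM : Main2_stmt) : GapFinal_stmt ∧ BoundFinal_stmt := ⟨R11a hGap, R11b hM⟩

end Pool.Agent.Helper15.LR
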